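import Pool.Agent.W332.OK.Inst
import Pool.Agent.W254.HP.Opt
import Pool.Agent.W254.PA.App

set_option autoImplicit false
set_option linter.unusedSectionVars false

/-!
# Singular matrices of logarithms: the complex and the `p`-adic case
-/

namespace Pool.Agent.W332.OK

open Module
open Pool.Agent.W254.PA (Hyp LtE logs hyp_padic)

section inst

variable {E : Type*} [Field E] [CharZero E] [IsAlgClosed E]

variable (Λ : Submodule ℚ E) (hB : ∀ (d : ℕ) (b : Fin d → E), (∀ k, b k ∈ Λ) →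
  LinearIndependent ℚ b → LinearIndependent (algebraicClosure ℚ E) b)

include hB

theorem final_aux {n : ℕ} (V : Submodule (algebraicClosure ℚ E) E) (hΛV : ∀ z ∈ Λ, z ∈ V)
    (hH : Hyp V) (M : Matrix (Fin n) (Fin n) E) (hM : ∀ i j, M i j ∈ Λ)
    (K : Type) [Field K] [NumberField K] (ι : K →+* E) (hn : Odd n ∨ 2 * finrank ℚ K < n)
    (a b : Fin n → K) (x y : E) (hξ : (fun i => ι (a i) * x + ι (b i) * y) ≠ 0)
    (hker : ∀ i, ∑ j, M i j * (ι (a j) * x + ι (b j) * y) = 0) :
    ∃ w v : Fin n → ℚ, w ≠ 0 ∧ v ≠ 0 ∧ ∑ i, ∑ j, ((w i : ℚ) : E) * M i j * ((v j : ℚ) : E) = 0 := by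
  classical
  by_contra hcon
  have hno : ∀ w v : Fin n → ℚ, w ≠ 0 → v ≠ 0 →
      ∑ i, ∑ j, ((w i : ℚ) : E) * M i j * ((v j : ℚ) : E) ≠ 0 :=
    fun w v hw hv h => hcon ⟨w, v, hw, hv, h⟩
  have halg : ∀ k : K, ι k ∈ algebraicClosure ℚ E := fun k => mem_algebraicClosure_iff.2
    ((Algebra.IsAlgebraic.isAlgebraic (R := ℚ) k).algHom (RingHom.toRatAlgHom ι))
  let ι' : K →+* algebraicClosure ℚ E :=
    { toFun := fun k => ⟨ι k, halg k⟩
      map_one' := Subtype.ext (map_one ι)
      map_mul' := fun x y => Subtype.ext (map_mul ι x y)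
      map_zero' := Subtype.ext (map_zero ι)
      map_add' := fun x y => Subtype.ext (map_add ι x y) }
  obtain ⟨heven, htop⟩ := main_inst Λ hB V hΛV hH M hM hno (fun i => ι' (a i)) (fun i => ι' (b i))
    x y hξ hker
  rcases hn with hn | hn
  · exact (Nat.not_even_iff_odd.2 hn) heven
  · have hcl : IsAlgClosed (algebraicClosure ℚ E) :=
      (algebraicClosure.isAlgClosure ℚ E).isAlgClosed
    have hcard : Fintype.card (K →+* algebraicClosure ℚ E) = finrank ℚ K :=
      NumberField.Embeddings.card K (algebraicClosure ℚ E)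
    let f : (K →+* algebraicClosure ℚ E) × Fin 2 → (Fin n → algebraicClosure ℚ E) :=
      fun q i => q.1 ((![a, b] q.2) i)
    have hle : (⨆ σ : algebraicClosure ℚ E ≃ₐ[ℚ] algebraicClosure ℚ E,
        tw σ (Submodule.span (algebraicClosure ℚ E)
          (Set.range ![fun i => ι' (a i), fun i => ι' (b i)]))) ≤
        Submodule.span (algebraicClosure ℚ E) (Set.range f) := by
      apply iSup_le
      intro σ z hz
      rw [mem_tw, Matrix.range_cons, Matrix.range_cons, Matrix.range_empty, Set.union_empty,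
        Set.singleton_union, Submodule.mem_span_pair] at hz
      obtain ⟨c, d, h⟩ := hz
      have h1 : z = σ c • f ((σ : algebraicClosure ℚ E →+* algebraicClosure ℚ E).comp ι', 0) +
          σ d • f ((σ : algebraicClosure ℚ E →+* algebraicClosure ℚ E).comp ι', 1) := by
        funext i
        have h2 := congrArg σ (congrFun h i)
        simp only [Pi.add_apply, Pi.smul_apply, smul_eq_mul, map_add, map_mul,
          AlgEquiv.apply_symm_apply] at h2
        exact h2.symm
      rw [h1]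
      exact add_mem (Submodule.smul_mem _ _ (Submodule.subset_span ⟨_, rfl⟩))
        (Submodule.smul_mem _ _ (Submodule.subset_span ⟨_, rfl⟩))
    rw [htop, top_le_iff] at hle
    have h2 := finrank_range_le_card (R := algebraicClosure ℚ E) f
    rw [Set.finrank, hle, finrank_top, finrank_fin_fun, Fintype.card_prod, hcard,
      Fintype.card_fin] at h2
    omega

/-- **Main theorem.** Also for left kernel vectors. -/
theorem final {n : ℕ} (V : Submodule (algebraicClosure ℚ E) E) (hΛV : ∀ z ∈ Λ, z ∈ V)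
    (hH : Hyp V) (M : Matrix (Fin n) (Fin n) E) (hM : ∀ i j, M i j ∈ Λ)
    (K : Type) [Field K] [NumberField K] (ι : K →+* E) (hn : Odd n ∨ 2 * finrank ℚ K < n)
    (a b : Fin n → K) (x y : E) (hξ : (fun i => ι (a i) * x + ι (b i) * y) ≠ 0)
    (hker : M.mulVec (fun i => ι (a i) * x + ι (b i) * y) = 0 ∨
      M.vecMul (fun i => ι (a i) * x + ι (b i) * y) = 0) :
    ∃ w v : Fin n → ℚ, w ≠ 0 ∧ v ≠ 0 ∧ ∑ i, ∑ j, ((w i : ℚ) : E) * M i j * ((v j : ℚ) : E) = 0 := by
  rcases hker with h | h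
  · exact final_aux Λ hB V hΛV hH M hM K ι hn a b x y hξ (fun i => congrFun h i)
  · obtain ⟨w, v, hw, hv, h1⟩ := final_aux Λ hB V hΛV hH M.transpose (fun i j => hM j i) K ι hn
      a b x y hξ (fun i => by
        have h2 := congrFun h i
        rw [Matrix.vecMul, dotProduct, Pi.zero_apply] at h2
        rw [← h2]
        refine Finset.sum_congr rfl fun j _ => ?_
        rw [Matrix.transpose_apply, mul_comm])
    refine ⟨v, w, hv, hw, ?_⟩
    rw [← h1, Finset.sum_comm]
    refine Finset.sum_congr rfl fun i _ => Finset.sum_congr rfl fun j _ => ?_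
    rw [Matrix.transpose_apply]
    ring

end inst

section complex

open Pool.Agent.H301R2.SSE (QB Lt Lg mem_Lg)

theorem complex_case {n : ℕ} (M : Matrix (Fin n) (Fin n) ℂ)
    (hM : ∀ i j, IsAlgebraic ℚ (Complex.exp (M i j)))
    (K : Type) [Field K] [NumberField K] (ι : K →+* ℂ) (hn : Odd n ∨ 2 * finrank ℚ K < n)
    (a b : Fin n → K) (x y : ℂ) (hξ : (fun i => ι (a i) * x + ι (b i) * y) ≠ 0)
    (hker : M.mulVec (fun i => ι (a i) * x + ι (b i) * y) = 0 ∨
      M.vecMul (fun i => ι (a i) * x + ι (b i) * y) = 0) :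
    ∃ w v : Fin n → ℚ, w ≠ 0 ∧ v ≠ 0 ∧ ∑ i, ∑ j, ((w i : ℚ) : ℂ) * M i j * ((v j : ℚ) : ℂ) = 0 := by
  refine final Lg ?_ Lt ?_ ?_ M (fun i j => hM i j) K ι hn a b x y hξ hker
  · intro d b hb hli
    have h1 := Pool.Agent.W254.HP.opt_indep b (fun k => hb k) hli
    exact h1.comp some (Option.some_injective _)
  · intro z hz
    exact Submodule.subset_span (Or.inr hz)
  · intro d l x a hx ha hxa hcol
    exact Pool.Agent.W254.HP.hyperplane d l x a hx ha hxa hcol

end complex

section padic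

open Pool.Agent.W245.PB (IsIwasawaLog)

variable {p : ℕ} [Fact p.Prime] {L : PadicAlgCl p → PadicAlgCl p} (hL : IsIwasawaLog p L)

/-- the space of `p`-adic logarithms of algebraic numbers -/
noncomputable def logSp : Submodule ℚ (PadicAlgCl p) where
  carrier := logs L
  zero_mem' := ⟨1, one_ne_zero, isAlgebraic_one, hL.one.symm⟩
  add_mem' := by
    rintro _ _ ⟨α, hα, hα', rfl⟩ ⟨β, hβ, hβ', rfl⟩
    exact ⟨α * β, mul_ne_zero hα hβ, hα'.mul hβ', (hL.mul α β hα hβ).symm⟩
  smul_mem' := by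
    rintro q _ ⟨α, hα, hα', rfl⟩
    obtain ⟨γ, hγ⟩ := IsAlgClosed.exists_pow_nat_eq (α ^ q.num) q.den_pos
    have hγ0 : γ ≠ 0 := by
      rintro rfl
      rw [zero_pow q.den_nz] at hγ
      exact zpow_ne_zero _ hα hγ.symm
    refine ⟨γ, hγ0, ?_, ?_⟩
    · have h1 : IsAlgebraic ℚ (γ ^ q.den) := by
        rw [hγ]
        obtain ⟨m, hm | hm⟩ := q.num.eq_nat_or_neg
        · rw [hm, zpow_natCast]; exact hα'.pow _
        · rw [hm, zpow_neg, zpow_natCast]; exact (hα'.pow _).inv
      exact h1.of_pow q.den_pos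
    · have h1 : (q.den : PadicAlgCl p) * L γ = (q.num : PadicAlgCl p) * L α := by
        rw [← hL.pow hγ0, hγ, hL.zpow hα]
      have h2 : (q.den : PadicAlgCl p) ≠ 0 := Nat.cast_ne_zero.2 q.den_nz
      rw [Rat.smul_def]
      apply mul_left_cancel₀ h2
      rw [h1, ← mul_assoc]
      congr 1
      have h3 : ((q.den : ℚ) * q : ℚ) = (q.num : ℚ) := by
        rw [mul_comm]; exact_mod_cast Rat.mul_den_eq_num q
      exact_mod_cast congrArg (fun r : ℚ => (r : PadicAlgCl p)) h3

include hL in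
theorem padic_case {n : ℕ} (M : Matrix (Fin n) (Fin n) (PadicAlgCl p))
    (hM : ∀ i j, ∃ α : PadicAlgCl p, α ≠ 0 ∧ IsAlgebraic ℚ α ∧ M i j = L α)
    (K : Type) [Field K] [NumberField K] (ι : K →+* PadicAlgCl p)
    (hn : Odd n ∨ 2 * finrank ℚ K < n)
    (a b : Fin n → K) (x y : PadicAlgCl p) (hξ : (fun i => ι (a i) * x + ι (b i) * y) ≠ 0)
    (hker : M.mulVec (fun i => ι (a i) * x + ι (b i) * y) = 0 ∨
      M.vecMul (fun i => ι (a i) * x + ι (b i) * y) = 0) :
    ∃ w v : Fin n → ℚ, w ≠ 0 ∧ v ≠ 0 ∧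
      ∑ i, ∑ j, ((w i : ℚ) : PadicAlgCl p) * M i j * ((v j : ℚ) : PadicAlgCl p) = 0 := by
  refine final (logSp hL) ?_ (LtE (logs L)) ?_ (hyp_padic hL) M (fun i j => hM i j) K ι hn a b x y
    hξ hker
  · intro d b hb hli
    choose α hα hα' hbα using hb
    have h0 : b = fun k => L (α k) := funext hbα
    rw [h0] at hli ⊢
    have h1 := Pool.Agent.W254.PA.optP_indep hL α hα hα' hli
    exact h1.comp some (Option.some_injective _)
  · intro z hz
    exact Submodule.subset_span (Or.inr hz)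

end padic

end Pool.Agent.W332.OK
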