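import Mathlib

set_option autoImplicit false
set_option linter.unusedSectionVars false

/-!
# Bilinear maps over a Galois extension of `ℚ` without rational zeros

Let `β : κⁿ × κⁿ → E` be a bilinear map whose zero set is stable under `Gal(κ/ℚ)` and which has no
nontrivial rational zero. Then `dim X + dim X^⊥ ≤ n` for all subspaces `X`, and the subspaces with
equality form a lattice.
-/

namespace Pool.Agent.W332.OK

open Module

variable {κ : Type*} [Field κ] [Algebra ℚ κ] [IsGalois ℚ κ] {n : ℕ}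

/-- the image of a subspace under a Galois automorphism -/
def tw (σ : κ ≃ₐ[ℚ] κ) (X : Submodule κ (Fin n → κ)) : Submodule κ (Fin n → κ) where
  carrier := {x | (fun i => σ.symm (x i)) ∈ X}
  zero_mem' := by
    change (fun i => σ.symm ((0 : Fin n → κ) i)) ∈ X
    simp only [Pi.zero_apply, map_zero]
    exact X.zero_mem
  add_mem' {x y} hx hy := by
    change (fun i => σ.symm ((x + y) i)) ∈ X
    simp only [Pi.add_apply, map_add]
    exact X.add_mem hx hy
  smul_mem' c x hx := by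
    change (fun i => σ.symm ((c • x) i)) ∈ X
    simp only [Pi.smul_apply, smul_eq_mul, map_mul]
    exact X.smul_mem (σ.symm c) hx

omit [IsGalois ℚ κ] in
lemma mem_tw {σ : κ ≃ₐ[ℚ] κ} {X : Submodule κ (Fin n → κ)} {x : Fin n → κ} :
    x ∈ tw σ X ↔ (fun i => σ.symm (x i)) ∈ X := Iff.rfl

omit [IsGalois ℚ κ] in
lemma tw_mem {σ : κ ≃ₐ[ℚ] κ} {X : Submodule κ (Fin n → κ)} {x : Fin n → κ} (hx : x ∈ X) :
    (fun i => σ (x i)) ∈ tw σ X := by
  rw [mem_tw]
  simpa only [AlgEquiv.symm_apply_apply] using hx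

omit [IsGalois ℚ κ] in
lemma finrank_tw (σ : κ ≃ₐ[ℚ] κ) (X : Submodule κ (Fin n → κ)) :
    finrank κ (tw σ X) = finrank κ X := by
  have h : Module.rank κ X = Module.rank κ (tw σ X) := by
    refine rank_eq_of_equiv_equiv (σ : κ → κ)
      { toFun := fun x => ⟨fun i => σ (x.1 i), tw_mem x.2⟩
        invFun := fun y => ⟨fun i => σ.symm (y.1 i), y.2⟩
        left_inv := fun x => by ext i; simp
        right_inv := fun y => by ext i; simp
        map_add' := fun x y => by ext i; simp } σ.bijective ?_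
    intro c x
    ext i
    simp
  rw [finrank, finrank, h]

/-- Galois stable subspaces contain rational vectors -/
lemma exists_rat (X : Submodule κ (Fin n → κ)) (hX : X ≠ ⊥)
    (hσ : ∀ σ : κ ≃ₐ[ℚ] κ, ∀ x ∈ X, (fun i => σ (x i)) ∈ X) :
    ∃ v : Fin n → ℚ, v ≠ 0 ∧ (fun i => algebraMap ℚ κ (v i)) ∈ X := by
  classical
  obtain ⟨x0, hx0, hx0'⟩ := Submodule.exists_mem_ne_zero_of_ne_bot hX
  have hex : ∃ k, ∃ x ∈ X, x ≠ 0 ∧ (Finset.univ.filter (fun i => x i ≠ 0)).card = k :=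
    ⟨_, x0, hx0, hx0', rfl⟩
  obtain ⟨x, hx, hxne, hxk⟩ := Nat.find_spec hex
  have hmin : ∀ y ∈ X, y ≠ 0 → Nat.find hex ≤ (Finset.univ.filter (fun i => y i ≠ 0)).card :=
    fun y hy hy0 => Nat.find_min' hex ⟨y, hy, hy0, rfl⟩
  obtain ⟨i0, hi0⟩ : ∃ i, x i ≠ 0 := by
    by_contra h
    push Not at h
    exact hxne (funext h)
  set y : Fin n → κ := (x i0)⁻¹ • x with hy
  have hyX : y ∈ X := X.smul_mem _ hx
  have hyi0 : y i0 = 1 := by
    rw [hy, Pi.smul_apply, smul_eq_mul, inv_mul_cancel₀ hi0]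
  have hfix : ∀ σ : κ ≃ₐ[ℚ] κ, ∀ i, σ (y i) = y i := by
    intro σ
    by_contra hcon
    push Not at hcon
    obtain ⟨i1, hi1⟩ := hcon
    have hz : (fun i => σ (y i)) - y ∈ X := X.sub_mem (hσ σ y hyX) hyX
    have hz0 : (fun i => σ (y i)) - y ≠ 0 := by
      intro h
      have h1 := congrFun h i1
      rw [Pi.sub_apply, Pi.zero_apply, sub_eq_zero] at h1
      exact hi1 h1
    have h1 := hmin _ hz hz0
    have h2 : (Finset.univ.filter (fun i => ((fun i => σ (y i)) - y) i ≠ 0)) ⊆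
        (Finset.univ.filter (fun i => x i ≠ 0)).erase i0 := by
      intro i hi
      rw [Finset.mem_filter] at hi
      rw [Finset.mem_erase, Finset.mem_filter]
      refine ⟨?_, Finset.mem_univ _, ?_⟩
      · rintro rfl
        apply hi.2
        rw [Pi.sub_apply, hyi0, map_one, sub_self]
      · intro h
        apply hi.2
        have h3 : y i = 0 := by rw [hy, Pi.smul_apply, h, smul_zero]
        rw [Pi.sub_apply, h3, map_zero, sub_self]
    have h3 := Finset.card_le_card h2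
    have h4 : i0 ∈ Finset.univ.filter (fun i => x i ≠ 0) := by simp [hi0]
    rw [Finset.card_erase_of_mem h4, hxk] at h3
    have h5 : 0 < Nat.find hex := by
      rw [← hxk]
      exact Finset.card_pos.2 ⟨i0, h4⟩
    omega
  have hrat : ∀ i, ∃ q : ℚ, algebraMap ℚ κ q = y i := by
    intro i
    have h1 : y i ∈ (⊥ : IntermediateField ℚ κ) :=
      (InfiniteGalois.mem_bot_iff_fixed (y i)).2 (fun σ => hfix σ i)
    rw [IntermediateField.mem_bot] at h1
    exact h1
  choose v hv using hrat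
  refine ⟨v, ?_, ?_⟩
  · intro h
    have h1 := hv i0
    rw [h, Pi.zero_apply, map_zero, hyi0] at h1
    exact zero_ne_one h1
  · have h1 : (fun i => algebraMap ℚ κ (v i)) = y := funext hv
    rw [h1]
    exact hyX

section beta

variable {E : Type*} [AddCommGroup E] [Module κ E]
  (β : (Fin n → κ) →ₗ[κ] (Fin n → κ) →ₗ[κ] E)

/-- the orthogonal of a subspace -/
def NN (X : Submodule κ (Fin n → κ)) : Submodule κ (Fin n → κ) where
  carrier := {w | ∀ x ∈ X, β w x = 0}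
  zero_mem' := fun x _ => by rw [map_zero, LinearMap.zero_apply]
  add_mem' {v w} hv hw x hx := by rw [map_add, LinearMap.add_apply, hv x hx, hw x hx, add_zero]
  smul_mem' c w hw x hx := by rw [map_smul, LinearMap.smul_apply, hw x hx, smul_zero]

omit [Algebra ℚ κ] [IsGalois ℚ κ] in
lemma mem_NN {X : Submodule κ (Fin n → κ)} {w : Fin n → κ} : w ∈ NN β X ↔ ∀ x ∈ X, β w x = 0 :=
  Iff.rfl

omit [Algebra ℚ κ] [IsGalois ℚ κ] in
lemma NN_anti {X Y : Submodule κ (Fin n → κ)} (h : X ≤ Y) : NN β Y ≤ NN β X :=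
  fun _ hw x hx => hw x (h hx)

omit [Algebra ℚ κ] [IsGalois ℚ κ] in
lemma NN_sup (X Y : Submodule κ (Fin n → κ)) : NN β (X ⊔ Y) = NN β X ⊓ NN β Y := by
  apply le_antisymm
  · exact le_inf (NN_anti β le_sup_left) (NN_anti β le_sup_right)
  · intro w hw x hx
    obtain ⟨y, hy, z, hz, rfl⟩ := Submodule.mem_sup.1 hx
    rw [map_add, hw.1 y hy, hw.2 z hz, add_zero]

omit [Algebra ℚ κ] [IsGalois ℚ κ] in
lemma NN_inf (X Y : Submodule κ (Fin n → κ)) : NN β X ⊔ NN β Y ≤ NN β (X ⊓ Y) :=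
  sup_le (NN_anti β inf_le_left) (NN_anti β inf_le_right)

omit [Algebra ℚ κ] [IsGalois ℚ κ] in
lemma NN_bot : NN β (⊥ : Submodule κ (Fin n → κ)) = ⊤ := by
  rw [eq_top_iff]
  intro w _ x hx
  rw [Submodule.mem_bot] at hx
  rw [hx, map_zero]

/-- `dim X + dim X^⊥` -/
noncomputable def gg (X : Submodule κ (Fin n → κ)) : ℕ := finrank κ X + finrank κ (NN β X)

omit [Algebra ℚ κ] [IsGalois ℚ κ] in
lemma gg_bot : gg β (⊥ : Submodule κ (Fin n → κ)) = n := by
  unfold gg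
  rw [NN_bot, finrank_bot, finrank_top, finrank_fin_fun, zero_add]

omit [Algebra ℚ κ] [IsGalois ℚ κ] in
lemma gg_super (X Y : Submodule κ (Fin n → κ)) : gg β X + gg β Y ≤ gg β (X ⊔ Y) + gg β (X ⊓ Y) := by
  have h1 := Submodule.finrank_sup_add_finrank_inf_eq X Y
  have h2 := Submodule.finrank_sup_add_finrank_inf_eq (NN β X) (NN β Y)
  have h3 := Submodule.finrank_mono (NN_inf β X Y)
  unfold gg
  rw [NN_sup]
  omega

variable (hβ : ∀ (σ : κ ≃ₐ[ℚ] κ) (w v : Fin n → κ), β w v = 0 →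
  β (fun i => σ (w i)) (fun i => σ (v i)) = 0)

include hβ

omit [IsGalois ℚ κ] in
lemma NN_tw (σ : κ ≃ₐ[ℚ] κ) (X : Submodule κ (Fin n → κ)) : NN β (tw σ X) = tw σ (NN β X) := by
  ext w
  rw [mem_tw, mem_NN, mem_NN]
  constructor
  · intro h x hx
    have h1 := h _ (tw_mem (σ := σ) hx)
    have h2 := hβ σ.symm _ _ h1
    simpa only [AlgEquiv.symm_apply_apply] using h2
  · intro h x hx
    have h1 := h _ (mem_tw.1 hx)
    have h2 := hβ σ _ _ h1
    simpa only [AlgEquiv.apply_symm_apply] using h2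

omit [IsGalois ℚ κ] in
lemma gg_tw (σ : κ ≃ₐ[ℚ] κ) (X : Submodule κ (Fin n → κ)) : gg β (tw σ X) = gg β X := by
  unfold gg
  rw [NN_tw β hβ, finrank_tw, finrank_tw]

variable (hR : ∀ w v : Fin n → ℚ, w ≠ 0 → v ≠ 0 →
  β (fun i => algebraMap ℚ κ (w i)) (fun i => algebraMap ℚ κ (v i)) ≠ 0)

include hR

/-- a nonzero Galois stable subspace has trivial orthogonal -/
lemma stab_full (X : Submodule κ (Fin n → κ)) (hX : X ≠ ⊥)
    (hσ : ∀ σ : κ ≃ₐ[ℚ] κ, ∀ x ∈ X, (fun i => σ (x i)) ∈ X) : NN β X = ⊥ := by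
  by_contra hcon
  obtain ⟨v, hv, hvX⟩ := exists_rat X hX hσ
  obtain ⟨w, hw, hwX⟩ := exists_rat (NN β X) hcon (by
    intro σ w hw x hx
    have h1 := hw _ (hσ σ.symm x hx)
    have h2 := hβ σ _ _ h1
    simpa only [AlgEquiv.apply_symm_apply] using h2)
  exact hR w v hw hv (hwX _ hvX)

/-- `dim X + dim X^⊥ ≤ n` -/
lemma gg_le (X : Submodule κ (Fin n → κ)) : gg β X ≤ n := by
  classical
  -- a maximiser of `gg`, minimal for the inclusion
  have hbdd : ∀ X : Submodule κ (Fin n → κ), gg β X ≤ n + n := by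
    intro X
    have h1 := Submodule.finrank_le X
    have h2 := Submodule.finrank_le (NN β X)
    rw [finrank_fin_fun] at h1 h2
    unfold gg
    omega
  obtain ⟨X0, hX0⟩ : ∃ X0 : Submodule κ (Fin n → κ), ∀ Y, gg β Y ≤ gg β X0 := by
    have hex : ∃ k, ∃ X : Submodule κ (Fin n → κ), 2 * n - gg β X = k := ⟨_, ⊥, rfl⟩
    obtain ⟨X0, hX0⟩ := Nat.find_spec hex
    refine ⟨X0, fun Y => ?_⟩
    have h1 := Nat.find_min' hex ⟨Y, rfl⟩
    have h2 := hbdd Y
    have h3 := hbdd X0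
    omega
  obtain ⟨X1, hX1, hmin⟩ := (wellFounded_lt (α := Submodule κ (Fin n → κ))).has_min
    {X | ∀ Y, gg β Y ≤ gg β X} ⟨X0, hX0⟩
  have hst : ∀ σ : κ ≃ₐ[ℚ] κ, X1 ≤ tw σ X1 := by
    intro σ
    have h1 := gg_super β X1 (tw σ X1)
    rw [gg_tw β hβ] at h1
    have h2 := hX1 (X1 ⊔ tw σ X1)
    have h3 := hX1 (X1 ⊓ tw σ X1)
    have h4 : X1 ⊓ tw σ X1 ∈ {X | ∀ Y, gg β Y ≤ gg β X} := fun Y => by
      have := hX1 Y
      omega
    have h5 := hmin _ h4
    have h6 : X1 ⊓ tw σ X1 = X1 := by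
      by_contra hne
      exact h5 (lt_of_le_of_ne inf_le_left hne)
    exact inf_eq_left.1 h6
  have hst' : ∀ σ : κ ≃ₐ[ℚ] κ, ∀ x ∈ X1, (fun i => σ (x i)) ∈ X1 := by
    intro σ x hx
    have h1 := hst σ.symm hx
    exact h1
  refine (hX1 X).trans ?_
  by_contra hcon
  push Not at hcon
  have hne : X1 ≠ ⊥ := by
    rintro h
    rw [h, gg_bot] at hcon
    exact lt_irrefl _ hcon
  have h1 := stab_full β hβ hR X1 hne hst'
  unfold gg at hcon
  rw [h1, finrank_bot, add_zero] at hcon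
  have h2 := Submodule.finrank_le X1
  rw [finrank_fin_fun] at h2
  omega

/-- **Main lemma.** -/
theorem main_abs (U : Submodule κ (Fin n → κ)) (hU2 : finrank κ U = 2) (hU : n ≤ gg β U)
    (hline : ∀ Y ≤ U, finrank κ Y = 1 → gg β Y < n) :
    Even n ∧ (⨆ σ : κ ≃ₐ[ℚ] κ, tw σ U) = ⊤ := by
  classical
  have hUn : gg β U = n := le_antisymm (gg_le β hβ hR U) hU
  set W : Submodule κ (Fin n → κ) := ⨆ σ : κ ≃ₐ[ℚ] κ, tw σ U with hW
  have hle : ∀ σ : κ ≃ₐ[ℚ] κ, tw σ U ≤ W := fun σ => le_iSup (fun σ : κ ≃ₐ[ℚ] κ => tw σ U) σ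
  obtain ⟨X, hX, hmax⟩ := (wellFounded_gt (α := Submodule κ (Fin n → κ))).has_min
    {X | gg β X = n ∧ Even (finrank κ X) ∧ X ≤ W} ⟨⊥, gg_bot β, by rw [finrank_bot]; exact Even.zero,
      bot_le⟩
  obtain ⟨hX1, hX2, hX3⟩ := hX
  have hsub : ∀ σ : κ ≃ₐ[ℚ] κ, tw σ U ≤ X := by
    intro σ
    have h1 := gg_super β X (tw σ U)
    rw [gg_tw β hβ, hX1, hUn] at h1
    have h2 := gg_le β hβ hR (X ⊔ tw σ U)
    have h3 := gg_le β hβ hR (X ⊓ tw σ U)
    have h4 : finrank κ ↥(X ⊓ tw σ U) ≠ 1 := by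
      intro h
      have h5 := hline (tw σ.symm (X ⊓ tw σ U)) (by
        intro x hx
        have h6 : (fun i => σ (x i)) ∈ X ⊓ tw σ U := hx
        have h7 := mem_tw.1 h6.2
        simpa only [AlgEquiv.symm_apply_apply] using h7) (by rw [finrank_tw]; exact h)
      rw [gg_tw β hβ] at h5
      omega
    have h5 := Submodule.finrank_sup_add_finrank_inf_eq X (tw σ U)
    rw [finrank_tw, hU2] at h5
    have h6 : finrank κ ↥(X ⊓ tw σ U) ≤ 2 := by
      have := Submodule.finrank_mono (inf_le_right : X ⊓ tw σ U ≤ tw σ U)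
      rwa [finrank_tw, hU2] at this
    have h7 : Even (finrank κ ↥(X ⊔ tw σ U)) := by
      obtain ⟨m, hm⟩ := hX2
      interval_cases h8 : finrank κ ↥(X ⊓ tw σ U)
      · exact ⟨m + 1, by omega⟩
      · exact absurd rfl h4
      · exact ⟨m, by omega⟩
    have h8 := hmax (X ⊔ tw σ U) ⟨by omega, h7, sup_le hX3 (hle σ)⟩
    have h9 : X ⊔ tw σ U = X := by
      by_contra hne
      exact h8 (lt_of_le_of_ne le_sup_left (Ne.symm hne))
    exact sup_eq_left.1 h9
  have hWX : W ≤ X := iSup_le hsub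
  have hWX' : W = X := le_antisymm hWX hX3
  have hWne : W ≠ ⊥ := by
    intro h
    have h1 := hle 1
    rw [h, le_bot_iff] at h1
    have h2 := finrank_tw (1 : κ ≃ₐ[ℚ] κ) U
    rw [h1, finrank_bot, hU2] at h2
    omega
  have hWst : ∀ σ : κ ≃ₐ[ℚ] κ, ∀ x ∈ W, (fun i => σ (x i)) ∈ W := by
    intro σ x hx
    have h1 : W ≤ tw σ.symm W := by
      apply iSup_le
      intro τ y hy
      rw [mem_tw]
      apply hle (σ * τ)
      rw [mem_tw] at hy ⊢
      have h2 : (fun i => (σ * τ).symm (σ.symm.symm (y i))) = fun i => τ.symm (y i) := by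
        funext i
        change τ.symm (σ.symm (σ (y i))) = _
        rw [AlgEquiv.symm_apply_apply]
      rw [h2]
      exact hy
    exact h1 hx
  have h1 := stab_full β hβ hR W hWne hWst
  have h2 : finrank κ W = n := by
    have h3 := hX1
    rw [← hWX'] at h3
    unfold gg at h3
    rw [h1, finrank_bot, add_zero] at h3
    exact h3
  have h3 : W = ⊤ := by
    apply Submodule.eq_top_of_finrank_eq
    rw [h2, finrank_fin_fun]
  refine ⟨?_, h3⟩
  rw [← hWX', h2] at hX2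
  exact hX2

end beta

end Pool.Agent.W332.OK
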