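import Pool.Agent.W332.OK.Abs
import Pool.Agent.W254.PA.Transfer

set_option autoImplicit false
set_option linter.unusedSectionVars false

/-!
# Singular matrices with a kernel vector in a plane defined over the algebraic numbers
-/

namespace Pool.Agent.W332.OK

open Module
open Pool.Agent.W254.PA (Hyp)

section inst

variable {E : Type*} [Field E] [CharZero E] [IsAlgClosed E]

instance gal_inst : IsGalois ℚ (algebraicClosure ℚ E) := by
  have h1 : IsAlgClosed (algebraicClosure ℚ E) := (algebraicClosure.isAlgClosure ℚ E).isAlgClosed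
  have h2 : @Algebra.IsAlgebraic ℚ (algebraicClosure ℚ E) _ _ (algebraicClosure ℚ E).algebra' :=
    algebraicClosure.isAlgebraic ℚ E
  have h3 : Algebra.IsAlgebraic ℚ (algebraicClosure ℚ E) := by
    convert h2
    exact Subsingleton.elim _ _
  have h4 : Normal ℚ (algebraicClosure ℚ E) :=
    { splits' := fun x => IsAlgClosed.splits _ }
  exact {}

/-- the bilinear map of a matrix -/
noncomputable def bil {n : ℕ} (M : Matrix (Fin n) (Fin n) E) :
    (Fin n → algebraicClosure ℚ E) →ₗ[algebraicClosure ℚ E]
      (Fin n → algebraicClosure ℚ E) →ₗ[algebraicClosure ℚ E] E :=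
  LinearMap.mk₂ _ (fun w v => ∑ i, ∑ j, ((w i : E) * M i j * (v j : E)))
    (by
      intro w w' v
      simp only [Pi.add_apply, AddMemClass.coe_add, add_mul, Finset.sum_add_distrib])
    (by
      intro c w v
      simp only [Pi.smul_apply, smul_eq_mul, MulMemClass.coe_mul, Algebra.smul_def, Finset.mul_sum]
      refine Finset.sum_congr rfl fun i _ => Finset.sum_congr rfl fun j _ => ?_
      change (c : E) * (w i : E) * M i j * (v j : E) = (c : E) * ((w i : E) * M i j * (v j : E))
      ring)
    (by
      intro w v v'
      simp only [Pi.add_apply, AddMemClass.coe_add, mul_add, Finset.sum_add_distrib])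
    (by
      intro c w v
      simp only [Pi.smul_apply, smul_eq_mul, MulMemClass.coe_mul, Algebra.smul_def, Finset.mul_sum]
      refine Finset.sum_congr rfl fun i _ => Finset.sum_congr rfl fun j _ => ?_
      change (w i : E) * M i j * ((c : E) * (v j : E)) = (c : E) * ((w i : E) * M i j * (v j : E))
      ring)

lemma bil_apply {n : ℕ} (M : Matrix (Fin n) (Fin n) E) (w v : Fin n → algebraicClosure ℚ E) :
    bil M w v = ∑ i, ∑ j, ((w i : E) * M i j * (v j : E)) := rfl

variable (Λ : Submodule ℚ E) (hB : ∀ (d : ℕ) (b : Fin d → E), (∀ k, b k ∈ Λ) →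
  LinearIndependent ℚ b → LinearIndependent (algebraicClosure ℚ E) b)

include hB

/-- relations with algebraic coefficients between elements of `Λ` can be conjugated -/
lemma sum_equiv {ι : Type*} [Fintype ι] (m : ι → E) (hm : ∀ i, m i ∈ Λ)
    (c : ι → algebraicClosure ℚ E) (h : ∑ i, (c i : E) * m i = 0)
    (σ : algebraicClosure ℚ E ≃ₐ[ℚ] algebraicClosure ℚ E) :
    ∑ i, ((σ (c i) : algebraicClosure ℚ E) : E) * m i = 0 := by
  classical
  set V0 : Submodule ℚ E := Submodule.span ℚ (Set.range m) with hV0
  have hV0Λ : V0 ≤ Λ := Submodule.span_le.2 (by rintro _ ⟨i, rfl⟩; exact hm i)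
  have hfin : FiniteDimensional ℚ V0 := FiniteDimensional.span_of_finite ℚ (Set.finite_range m)
  let b := Module.finBasis ℚ V0
  have hmV : ∀ i, m i ∈ V0 := fun i => Submodule.subset_span ⟨i, rfl⟩
  let q : ι → Fin (finrank ℚ V0) → ℚ := fun i k => b.repr ⟨m i, hmV i⟩ k
  have hq : ∀ i, m i = ∑ k, ((q i k : ℚ) : E) * (b k : E) := by
    intro i
    have h1 := congrArg (fun z : V0 => (z : E)) (b.sum_repr ⟨m i, hmV i⟩)
    change ((∑ k, b.repr ⟨m i, hmV i⟩ k • b k : V0) : E) = m i at h1
    rw [← h1, AddSubmonoidClass.coe_finsetSum]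
    refine Finset.sum_congr rfl fun k _ => ?_
    rw [SetLike.val_smul, Rat.smul_def]
  have hli : LinearIndependent (algebraicClosure ℚ E) (fun k => (b k : E)) := by
    apply hB _ _ (fun k => hV0Λ (b k).2)
    have h1 := b.linearIndependent
    exact h1.map' V0.subtype (Submodule.ker_subtype V0)
  rw [Fintype.linearIndependent_iff] at hli
  have key : ∀ c : ι → algebraicClosure ℚ E, ∑ i, (c i : E) * m i =
      ∑ k, (∑ i, c i * ((q i k : ℚ) : algebraicClosure ℚ E)) • (b k : E) := by
    intro c
    have h1 : ∀ k, (∑ i, c i * ((q i k : ℚ) : algebraicClosure ℚ E)) • (b k : E) =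
        ∑ i, (c i : E) * (((q i k : ℚ) : E) * (b k : E)) := by
      intro k
      rw [Finset.sum_smul]
      refine Finset.sum_congr rfl fun i _ => ?_
      rw [Algebra.smul_def]
      change ((c i * ((q i k : ℚ) : algebraicClosure ℚ E) : algebraicClosure ℚ E) : E) * _ = _
      push_cast
      ring
    rw [Finset.sum_congr rfl (fun k _ => h1 k), Finset.sum_comm]
    refine Finset.sum_congr rfl fun i _ => ?_
    conv_lhs => rw [hq i]
    rw [Finset.mul_sum]
  rw [key] at h ⊢
  have h2 := hli _ h
  refine Finset.sum_eq_zero fun k _ => ?_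
  have h3 := congrArg σ (h2 k)
  rw [map_zero, map_sum] at h3
  have h4 : ∑ i, σ (c i) * ((q i k : ℚ) : algebraicClosure ℚ E) = 0 := by
    rw [← h3]
    refine Finset.sum_congr rfl fun i _ => ?_
    rw [map_mul, map_ratCast]
  rw [h4, zero_smul]

lemma bil_equiv {n : ℕ} (M : Matrix (Fin n) (Fin n) E) (hM : ∀ i j, M i j ∈ Λ)
    (σ : algebraicClosure ℚ E ≃ₐ[ℚ] algebraicClosure ℚ E) (w v : Fin n → algebraicClosure ℚ E)
    (h : bil M w v = 0) : bil M (fun i => σ (w i)) (fun i => σ (v i)) = 0 := by
  rw [bil_apply] at h ⊢
  have h1 := sum_equiv Λ hB (fun ij : Fin n × Fin n => M ij.1 ij.2) (fun ij => hM _ _)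
    (fun ij => w ij.1 * v ij.2) (by
      rw [Fintype.sum_prod_type, ← h]
      refine Finset.sum_congr rfl fun i _ => Finset.sum_congr rfl fun j _ => ?_
      push_cast
      ring) σ
  rw [Fintype.sum_prod_type] at h1
  rw [← h1]
  refine Finset.sum_congr rfl fun i _ => Finset.sum_congr rfl fun j _ => ?_
  rw [map_mul]
  push_cast
  ring

/-- the case of a kernel vector proportional to an algebraic vector -/
lemma no_alg {n : ℕ} (M : Matrix (Fin n) (Fin n) E) (hM : ∀ i j, M i j ∈ Λ)
    (hno : ∀ w v : Fin n → ℚ, w ≠ 0 → v ≠ 0 → ∑ i, ∑ j, ((w i : ℚ) : E) * M i j * ((v j : ℚ) : E) ≠ 0)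
    (u : Fin n → algebraicClosure ℚ E) (hu : u ≠ 0) (h : ∀ w, bil M w u = 0) : False := by
  have h1 := gg_le (bil M) (bil_equiv Λ hB M hM) (by
    intro w v hw hv
    have h2 := hno w v hw hv
    rw [bil_apply]
    have h3 : ∀ q : ℚ, ((algebraMap ℚ (algebraicClosure ℚ E) q : algebraicClosure ℚ E) : E) =
        (q : E) := fun q => by
      rw [eq_ratCast]; push_cast; rfl
    simpa only [h3] using h2) (Submodule.span _ {u})
  unfold gg at h1
  have h2 : NN (bil M) (Submodule.span (algebraicClosure ℚ E) {u}) = ⊤ := by
    rw [eq_top_iff]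
    intro w _ x hx
    obtain ⟨c, rfl⟩ := Submodule.mem_span_singleton.1 hx
    rw [map_smul, h, smul_zero]
  rw [h2, finrank_span_singleton hu, finrank_top, finrank_fin_fun] at h1
  omega

/-- **Main theorem, abstract form.** -/
theorem main_inst {n : ℕ} (V : Submodule (algebraicClosure ℚ E) E) (hΛV : ∀ z ∈ Λ, z ∈ V)
    (hH : Hyp V) (M : Matrix (Fin n) (Fin n) E) (hM : ∀ i j, M i j ∈ Λ)
    (hno : ∀ w v : Fin n → ℚ, w ≠ 0 → v ≠ 0 → ∑ i, ∑ j, ((w i : ℚ) : E) * M i j * ((v j : ℚ) : E) ≠ 0)
    (a b : Fin n → algebraicClosure ℚ E) (x y : E)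
    (hξ : (fun i => (a i : E) * x + (b i : E) * y) ≠ 0)
    (hker : ∀ i, ∑ j, M i j * ((a j : E) * x + (b j : E) * y) = 0) :
    Even n ∧ (⨆ σ : algebraicClosure ℚ E ≃ₐ[ℚ] algebraicClosure ℚ E,
      tw σ (Submodule.span (algebraicClosure ℚ E) (Set.range ![a, b]))) = ⊤ := by
  classical
  have hk : ∀ w, x * bil M w a + y * bil M w b = 0 := by
    intro w
    rw [bil_apply, bil_apply, Finset.mul_sum, Finset.mul_sum, ← Finset.sum_add_distrib]
    refine Finset.sum_eq_zero fun i _ => ?_
    have h1 := congrArg (fun z => (w i : E) * z) (hker i)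
    simp only [mul_zero, Finset.mul_sum] at h1
    rw [Finset.mul_sum, Finset.mul_sum, ← Finset.sum_add_distrib, ← h1]
    refine Finset.sum_congr rfl fun j _ => ?_
    ring
  have hsm : ∀ (c : algebraicClosure ℚ E) (z : E), c • z = (c : E) * z := fun c z => rfl
  have hx_li : LinearIndependent (algebraicClosure ℚ E) ![x, y] := by
    rw [LinearIndependent.pair_iff]
    intro s t hst
    rw [hsm, hsm] at hst
    by_contra hcon
    by_cases hs : (s : E) = 0
    · have hs' : s = 0 := Subtype.ext hs
      have ht : (t : E) ≠ 0 := fun h => hcon ⟨hs', Subtype.ext h⟩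
      rw [hs, zero_mul, zero_add] at hst
      have hy : y = 0 := (mul_eq_zero.1 hst).resolve_left ht
      have hx0 : x ≠ 0 := by
        rintro rfl
        apply hξ
        funext i
        rw [hy]; simp
      refine no_alg Λ hB M hM hno a ?_ (fun w => ?_)
      · rintro rfl
        apply hξ
        funext i
        rw [hy]; simp
      · have h1 := hk w
        rw [hy, zero_mul, add_zero] at h1
        exact (mul_eq_zero.1 h1).resolve_left hx0
    · have hx : x = -((t : E) / s) * y := by
        field_simp
        linear_combination hst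
      have hy0 : y ≠ 0 := by
        rintro rfl
        apply hξ
        funext i
        rw [hx]; simp
      refine no_alg Λ hB M hM hno (b - (t / s) • a) ?_ (fun w => ?_)
      · intro h
        apply hξ
        funext i
        have h1 := congrArg (fun z : algebraicClosure ℚ E => (z : E)) (congrFun h i)
        simp only [Pi.sub_apply, Pi.smul_apply, smul_eq_mul, Pi.zero_apply] at h1
        push_cast at h1
        rw [hx, Pi.zero_apply]
        linear_combination y * h1
      · rw [map_sub, map_smul, hsm]
        apply mul_left_cancel₀ hy0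
        have h1 := hk w
        rw [hx] at h1
        push_cast
        rw [mul_zero, ← h1]
        ring
  have hab_li : LinearIndependent (algebraicClosure ℚ E) ![a, b] := by
    rw [LinearIndependent.pair_iff]
    intro s t hst
    by_contra hcon
    have hsti : ∀ i, (s : E) * (a i : E) + (t : E) * (b i : E) = 0 := by
      intro i
      have h1 := congrArg (fun z : algebraicClosure ℚ E => (z : E)) (congrFun hst i)
      simp only [Pi.add_apply, Pi.smul_apply, smul_eq_mul, Pi.zero_apply] at h1
      push_cast at h1
      exact h1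
    have hstw : ∀ w, (s : E) * bil M w a + (t : E) * bil M w b = 0 := by
      intro w
      have h1 := congrArg (bil M w) hst
      rw [map_add, map_smul, map_smul, map_zero, hsm, hsm] at h1
      exact h1
    by_cases ht : (t : E) = 0
    · have ht' : t = 0 := Subtype.ext ht
      have hs : (s : E) ≠ 0 := fun h => hcon ⟨Subtype.ext h, ht'⟩
      have ha : ∀ i, (a i : E) = 0 := by
        intro i
        have h1 := hsti i
        rw [ht, zero_mul, add_zero] at h1
        exact (mul_eq_zero.1 h1).resolve_left hs
      have hy0 : y ≠ 0 := by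
        rintro rfl
        apply hξ
        funext i
        rw [ha]; simp
      refine no_alg Λ hB M hM hno b ?_ (fun w => ?_)
      · rintro rfl
        apply hξ
        funext i
        rw [ha]; simp
      · have h1 := hk w
        have h2 := hstw w
        rw [ht, zero_mul, add_zero] at h2
        rw [(mul_eq_zero.1 h2).resolve_left hs, mul_zero, zero_add] at h1
        exact (mul_eq_zero.1 h1).resolve_left hy0
    · have hb : ∀ i, (b i : E) = -((s : E) / t) * (a i : E) := by
        intro i
        field_simp
        linear_combination hsti i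
      have hbw : ∀ w, bil M w b = -((s : E) / t) * bil M w a := by
        intro w
        field_simp
        linear_combination hstw w
      have hz0 : x - ((s : E) / t) * y ≠ 0 := by
        intro h
        apply hξ
        funext i
        rw [hb, Pi.zero_apply]
        linear_combination (a i : E) * h
      refine no_alg Λ hB M hM hno a ?_ (fun w => ?_)
      · rintro rfl
        apply hξ
        funext i
        rw [hb, Pi.zero_apply, Pi.zero_apply]
        push_cast
        ring
      · apply mul_left_cancel₀ hz0
        have h1 := hk w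
        rw [hbw] at h1
        rw [mul_zero, ← h1]
        ring
  set U : Submodule (algebraicClosure ℚ E) (Fin n → algebraicClosure ℚ E) :=
    Submodule.span (algebraicClosure ℚ E) (Set.range ![a, b]) with hU
  have hU2 : finrank (algebraicClosure ℚ E) U = 2 := by
    rw [hU, finrank_span_eq_card hab_li, Fintype.card_fin]
  have haU : a ∈ U := Submodule.subset_span ⟨0, rfl⟩
  have hbU : b ∈ U := Submodule.subset_span ⟨1, rfl⟩
  have hmemU : ∀ z ∈ U, ∃ c d : algebraicClosure ℚ E, z = c • a + d • b := by
    intro z hz
    rw [hU, Matrix.range_cons, Matrix.range_cons, Matrix.range_empty, Set.union_empty,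
      Set.singleton_union, Submodule.mem_span_pair] at hz
    obtain ⟨c, d, h⟩ := hz
    exact ⟨c, d, h.symm⟩
  have hNU : ∀ w, w ∈ NN (bil M) U ↔ bil M w a = 0 ∧ bil M w b = 0 := by
    intro w
    constructor
    · intro h
      exact ⟨h a haU, h b hbU⟩
    · rintro ⟨h1, h2⟩ z hz
      obtain ⟨c, d, rfl⟩ := hmemU z hz
      rw [map_add, map_smul, map_smul, h1, h2, smul_zero, smul_zero, add_zero]
  -- the hyperplane theorem
  have hN : n ≤ gg (bil M) U := by
    let T : (Fin n → algebraicClosure ℚ E) →ₗ[algebraicClosure ℚ E] (Fin 2 → E) :=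
      LinearMap.pi (fun i => (bil M).flip (![a, b] i))
    have hT : ∀ w i, T w i = bil M w (![a, b] i) := fun w i => rfl
    have hkerT : LinearMap.ker T = NN (bil M) U := by
      ext w
      rw [LinearMap.mem_ker, hNU]
      constructor
      · intro h
        exact ⟨congrFun h 0, congrFun h 1⟩
      · rintro ⟨h1, h2⟩
        funext i
        fin_cases i
        · exact h1
        · exact h2
    have hrn := LinearMap.finrank_range_add_finrank_ker T
    rw [hkerT, finrank_fin_fun] at hrn
    let bT := Module.finBasis (algebraicClosure ℚ E) (LinearMap.range T)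
    have hcol : ∀ j, ∃ w, T w = (bT j : Fin 2 → E) := fun j => (bT j).2
    choose w hw using hcol
    have hr := hH 2 _ ![x, y] (fun i j => (bT j : Fin 2 → E) i) hx_li (by
      intro i j
      rw [← hw, hT, bil_apply]
      refine Submodule.sum_mem _ fun k _ => Submodule.sum_mem _ fun l _ => ?_
      have h1 : ((w j k : E) * M k l * ((![a, b] i) l : E)) =
          (w j k * (![a, b] i) l : algebraicClosure ℚ E) • M k l := by
        rw [hsm]; push_cast; ring
      rw [h1]
      exact V.smul_mem _ (hΛV _ (hM k l))) (by
      intro j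
      rw [Fin.sum_univ_two, ← hw]
      exact hk (w j)) (by
      have h1 := bT.linearIndependent
      exact h1.map' (LinearMap.range T).subtype (Submodule.ker_subtype _))
    unfold gg
    omega
  have hline : ∀ Y ≤ U, finrank (algebraicClosure ℚ E) Y = 1 → gg (bil M) Y < n := by
    intro Y hY hY1
    by_contra hcon
    push Not at hcon
    have hbe := bil_equiv Λ hB M hM
    have hno' : ∀ w v : Fin n → ℚ, w ≠ 0 → v ≠ 0 →
        bil M (fun i => algebraMap ℚ (algebraicClosure ℚ E) (w i))
          (fun i => algebraMap ℚ (algebraicClosure ℚ E) (v i)) ≠ 0 := by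
      intro w v hw hv
      have h2 := hno w v hw hv
      rw [bil_apply]
      have h3 : ∀ q : ℚ, ((algebraMap ℚ (algebraicClosure ℚ E) q : algebraicClosure ℚ E) : E) =
          (q : E) := fun q => by
        rw [eq_ratCast]; push_cast; rfl
      simpa only [h3] using h2
    have h0 := gg_le (bil M) hbe hno' U
    have hYne : Y ≠ ⊥ := by
      rintro rfl
      rw [finrank_bot] at hY1
      omega
    obtain ⟨y0, hy0, hy0'⟩ := Submodule.exists_mem_ne_zero_of_ne_bot hYne
    obtain ⟨c, d, hcd⟩ := hmemU y0 (hY hy0)
    have hle : NN (bil M) Y ≤ NN (bil M) U := by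
      intro w hw
      have h1 := hw y0 hy0
      rw [hcd, map_add, map_smul, map_smul, hsm, hsm] at h1
      have h2 := hk w
      have hdet : (c : E) * y - (d : E) * x ≠ 0 := by
        intro h
        have h3 := (LinearIndependent.pair_iff.1 hx_li) (-d) c (by
          rw [hsm, hsm]; push_cast; linear_combination h)
        apply hy0'
        rw [hcd, h3.2, neg_eq_zero.1 h3.1, zero_smul, zero_smul, add_zero]
      rw [hNU]
      constructor
      · apply mul_left_cancel₀ hdet
        linear_combination y * h1 - (d : E) * h2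
      · apply mul_left_cancel₀ hdet
        linear_combination (c : E) * h2 - x * h1
    have h3 := Submodule.finrank_mono hle
    unfold gg at hcon h0
    omega
  refine main_abs (bil M) (bil_equiv Λ hB M hM) ?_ U hU2 hN hline
  intro w v hw hv
  have h2 := hno w v hw hv
  rw [bil_apply]
  have h3 : ∀ q : ℚ, ((algebraMap ℚ (algebraicClosure ℚ E) q : algebraicClosure ℚ E) : E) =
      (q : E) := fun q => by
    rw [eq_ratCast]; push_cast; rfl
  simpa only [h3] using h2

end inst

end Pool.Agent.W332.OK
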